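import Pool.Agent.Q65.PerRec8

/-!
# MP_2c9a54_an: bounded solutions of a rational recurrence with periodic coefficient

A necessary and sufficient condition on `k` and `B_0, ..., B_{k-1}` for the boundedness of all
positive solutions of `x_{n+1} = 1 / (B_n x_n + x_{n-1})`.
-/

set_option autoImplicit false

namespace Pool.Agent.Results.MP_2c9a54_an.Boundedness

/-- `k` is the prime (least) period of the coefficients -/
def IsPrimePeriod (B : ℕ → ℝ) (k : ℕ) : Prop :=
  0 < k ∧ (∀ n, B (n + k) = B n) ∧ ∀ p, 0 < p → (∀ n, B (n + p) = B n) → k ≤ p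

/-- `x` is a positive solution of `x_{n+1} = 1 / (B_n x_n + x_{n-1})`; the index is shifted by one,
so `x 0, x 1` stand for `x_{-1}, x_0` -/
def IsPositiveSolution (B : ℕ → ℝ) (x : ℕ → ℝ) : Prop :=
  0 < x 0 ∧ 0 < x 1 ∧ ∀ n, x (n + 2) = 1 / (B n * x (n + 1) + x n)

/-- A step of an explicit itinerary `(n, Q, q)`: it goes from `n` to `n + 3` if `B_n > 0` and from
`n` to `n + 4` if `B_n = 0`. -/
noncomputable def step (B : ℕ → ℝ) (s : ℕ × ℝ × ℝ) : ℕ × ℝ × ℝ :=
  if 0 < B s.1 then (s.1 + 3, s.2.2, s.2.2 * (B s.1 / (1 + B s.1 * B (s.1 + 2))))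
  else (s.1 + 4, s.2.1, s.2.1 * (B (s.1 + 1) * s.2.1 + s.2.2) /
    (s.2.1 + B (s.1 + 3) * (B (s.1 + 1) * s.2.1 + s.2.2)))

/-- The condition.
(1) If the coefficients vanish on a residue class `n, n + 4, n + 8, ...` then they also vanish on
`n + 2, n + 6, n + 10, ...`.
(2) If `B_n > 0` and the itinerary started at `(n, 1, 1)` returns after `m ≤ k` steps to an index
congruent to `n` modulo `k` then the last entry is less than one. -/
def Cond (k : ℕ) (B : ℕ → ℝ) : Prop :=
  (∀ n, (∀ j, B (n + 4 * j) = 0) → ∀ j, B (n + 4 * j + 2) = 0) ∧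
  (∀ n, 0 < B n → ∀ m, 1 ≤ m → m ≤ k → ((step B)^[m] (n, 1, 1)).1 ≡ n [MOD k] →
    ((step B)^[m] (n, 1, 1)).2.2 < 1)

lemma sol_iff {B x : ℕ → ℝ} (hB : ∀ n, 0 ≤ B n) (h : IsPositiveSolution B x) :
    Q65.PerRec.Sol B x := by
  refine ⟨fun n => ?_, h.2.2⟩
  induction n using Nat.strong_induction_on with
  | _ n ih =>
    match n with
    | 0 => exact h.1
    | 1 => exact h.2.1
    | n + 2 =>
      rw [h.2.2 n]
      have h1 := ih n (by omega)
      have h2 := ih (n + 1) (by omega)
      have h3 := hB n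
      positivity

/-- positive solutions exist -/
lemma exists_sol {B : ℕ → ℝ} : ∃ x, IsPositiveSolution B x := by
  let F : ℕ → ℝ × ℝ → ℝ × ℝ := fun n p => (p.2, 1 / (B n * p.2 + p.1))
  let V : ℕ → ℝ × ℝ := fun n => Nat.rec (1, 1) (fun n p => F n p) n
  have hV : ∀ n, V (n + 1) = F n (V n) := fun n => rfl
  refine ⟨fun n => (V n).1, one_pos, ?_, fun n => ?_⟩
  · show (0 : ℝ) < 1
    exact one_pos
  · show (V (n + 2)).1 = 1 / (B n * (V (n + 1)).1 + (V n).1)
    rw [hV (n + 1), hV n]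

/-- **All positive solutions are bounded if and only if the condition holds; otherwise all positive
solutions are unbounded.  For positive coefficients the condition says: if `3` divides `k` then the
three products over the residue classes modulo `3` are less than one.** -/
theorem result (k : ℕ) (hk : 2 ≤ k) (B : ℕ → ℝ) (hB : ∀ n, 0 ≤ B n) (hper : IsPrimePeriod B k) :
    ((∀ x, IsPositiveSolution B x → BddAbove (Set.range x)) ↔ Cond k B) ∧
    (¬ Cond k B → ∀ x, IsPositiveSolution B x → ¬ BddAbove (Set.range x)) ∧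
    ((∀ n, 0 < B n) → (Cond k B ↔ (3 ∣ k → ∀ r < 3,
      ∏ j ∈ Finset.range (k / 3),
        B (r + 3 * j) / (1 + B (r + 3 * j) * B (r + 3 * j + 2)) < 1))) := by
  obtain ⟨hk0, hp, hmin⟩ := hper
  have hne : ∃ n, 0 < B n := by
    by_contra hcon
    push Not at hcon
    have h0 : ∀ n, B n = 0 := fun n => le_antisymm (hcon n) (hB n)
    have := hmin 1 one_pos (fun n => by rw [h0, h0])
    omega
  obtain ⟨m1, m2⟩ := Q65.PerRec.main hk0 hB hp hne
  have m1' : Cond k B → ∀ x, Q65.PerRec.Sol B x → BddAbove (Set.range x) := m1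
  have m2' : ¬ Cond k B → ∀ x, Q65.PerRec.Sol B x → ¬ BddAbove (Set.range x) := m2
  refine ⟨⟨fun h => ?_, fun h x hx => m1' h x (sol_iff hB hx)⟩,
    fun h x hx => m2' h x (sol_iff hB hx), fun hpos => ?_⟩
  · by_contra hcon
    obtain ⟨x, hx⟩ := exists_sol (B := B)
    exact m2' hcon x (sol_iff hB hx) (h x hx)
  · have hG := Q65.PerRec.G_iff hk0 hpos hp
    constructor
    · intro h
      exact hG.1 (Q65.PerRec.G_of_G hk0 hB hp h.2)
    · intro h
      refine ⟨fun n hn => absurd (hn 0) (hpos _).ne', fun n hn m hm _ hmod => ?_⟩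
      exact hG.2 h n hn m hm hmod

end Pool.Agent.Results.MP_2c9a54_an.Boundedness
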